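import Pool.Agent.Y472.A.Defs
import Pool.Agent.W711.HT.Rt

/-!
# Closed 3-braids: the exact formula.  Definitions and statements.
-/

set_option autoImplicit false

namespace Pool.Agent.Y472

open Finset Filter Topology Pool.Agent.H550R3.Jones Pool.Agent.W711.HT
open scoped Real

/-! ### Matrices and words -/

/-- matrix of an operator on two strands -/
noncomputable def mx (N : ℕ) (A : V2 →ₗ[ℂ] V2) : Matrix (Fin N × Fin N) (Fin N × Fin N) ℂ :=
  fun p q => A (dl q.1 q.2) p.1 p.2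

/-- the deformed coloured Jones polynomial of a closed 3-braid -/
noncomputable def JL (N : ℕ) (w l : ℂ) (b : List (ℕ × Bool)) : ℂ :=
  if h : 0 < N then
    tail (fun x : Fin N => KK w l x) 2 (rep (mx N (sg w l)) (mx N (sn w l)) 3 b) ⟨0, h⟩ ⟨0, h⟩
  else 0

/-- the operator of a word with the letters `0`, `1` -/
noncomputable def opw (w l : ℂ) (b : List (ℕ × Bool)) : V3 →ₗ[ℂ] V3 :=
  (b.map fun g => if g.1 = 0 then L12 (if g.2 then sg w l else sn w l)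
    else L23 (if g.2 then sg w l else sn w l)).prod

/-- JLX: in terms of operators -/
def S_JLX : Prop := S_SIGT → ∀ (N : ℕ) (w l : ℂ), Rt N w → l ≠ 0 → ∀ b : List (ℕ × Bool),
  (∀ g ∈ b, g.1 < 2) → JL N w l b =
    ∑ q ∈ range N, ∑ s ∈ range N, KK w l q * KK w l s * opw w l b (io (dl q s)) 0 q s

/-- JLC: the undeformed case, and continuity there -/
def S_JLC : Prop := ∀ (N : ℕ) (b : List (ℕ × Bool)), 2 ≤ N →
  JL N (vN N) (-1) b = cjones N 2 b (vN N) ∧ ContinuousAt (fun l => JL N (vN N) l b) (-1)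

/-- RTV: the root of unity -/
def S_RTV : Prop := ∀ N : ℕ, 2 ≤ N → Rt N (vN N)

/-- `|a|` letters `s_g` or its inverse -/
def letters (g : ℕ) (a : ℤ) : List (ℕ × Bool) := List.replicate a.natAbs (g, decide (0 ≤ a))

/-- the word of `∏ s_1^{a_i} s_2^{b_i}` -/
def bw (ls : List (ℤ × ℤ)) : List (ℕ × Bool) :=
  (ls.map fun p => letters 0 p.1 ++ letters 1 p.2).flatten

/-- the word of `m` full twists -/
def ftw (m : ℤ) : List (ℕ × Bool) :=
  (List.replicate m.natAbs [(0, decide (0 ≤ m)), (1, decide (0 ≤ m)), (0, decide (0 ≤ m)),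
    (0, decide (0 ≤ m)), (1, decide (0 ≤ m)), (0, decide (0 ≤ m))]).flatten

/-! ### The generic trace formula -/

/-- the matrix of `σ_1^a` -/
noncomputable def MA (N : ℕ) (w l : ℂ) (a : ℤ) : Matrix (Fin N) (Fin N) ℂ :=
  fun i j => if j ≤ i then gd w l a j i else 0

/-- the matrix of `σ_2^b` -/
noncomputable def MB (N : ℕ) (w l : ℂ) (D : ℕ) (b : ℤ) : Matrix (Fin N) (Fin N) ℂ :=
  fun i j => if i ≤ j then (∏ t ∈ Ioc (i : ℕ) j, ph w l D t) * gd w l b i j else 0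

/-- projection to the indices of the block -/
noncomputable def pI (N D : ℕ) : Matrix (Fin N) (Fin N) ℂ :=
  Matrix.diagonal fun i => if (i : ℕ) ≤ D ∧ D < i + N then 1 else 0

/-- the trace on the space of highest weight vectors -/
noncomputable def trI (N : ℕ) (w l : ℂ) (ls : List (ℤ × ℤ)) (D : ℕ) : ℂ :=
  (pI N D * (ls.map fun p => MA N w l p.1 * pI N D * MB N w l D p.2 * pI N D).prod).trace

/-- BASF: the split bases -/
def S_BASF : Prop := ∀ (N : ℕ) (w l : ℂ), Rt N w → Gl l →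
  (Matrix.det fun p p' : Fin N × Fin N => fb N w l (p'.1 + p'.2) p'.1 p.1 p.2) ≠ 0

/-- TRG: the generic trace formula -/
def S_TRG : Prop := S_JLX → S_BASF → S_PT → S_ACT → S_FT → S_HATM → S_GD3 → S_DEC → S_DDS → S_BAS →
  S_HV → S_SIG1 → S_SIG2 → S_SIGT → S_TH → S_NIL → S_QV → S_VWP → S_TAS → S_X12 → S_SPL → S_BID →
  ∀ (N : ℕ) (w l : ℂ), Rt N w → Gl l → ∀ (ls : List (ℤ × ℤ)) (m : ℤ),
  JL N w l (ftw m ++ bw ls) = l ^ (2 * N) * cb (l ^ N) / (cb l * cb (l ^ (3 * N))) *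
    ∑ D ∈ range (2 * N - 1), cb (l ^ 3 * w ^ (-2 - 2 * (D : ℤ))) * ta w l D ^ m * trI N w l ls D

/-! ### The limit -/

/-- the limit of the divided differences -/
noncomputable def cJ (N : ℕ) (a : ℤ) (i j : ℕ) : ℂ :=
  (-1) ^ (N - 1 - j + i) / (2 * π) *
    upp (1 / N) fun ψ => Ea a N ψ * Rp N (N - 1 - j) ψ * Rp N i ψ * kr N ψ

/-- GDA: the limit of the divided differences, analytic continuation -/
def S_GDA : Prop := ∀ N : ℕ, 2 ≤ N → ∃ c : ℤ → ℂ, (∀ a, ‖c a‖ = 1) ∧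
  ∀ (a : ℤ) (i j : ℕ), i ≤ j → j < N → ∃ G : ℂ → ℂ, DifferentiableAt ℂ G 0 ∧
    G 0 = c a * cJ N a i j ∧ ∀ᶠ ε in 𝓝[≠] (0 : ℂ), G ε = gd (vN N) (-Complex.exp ε) a i j

/-- the matrix of `σ_1^a` -/
noncomputable def MA0 (N : ℕ) (a : ℤ) : Matrix (Fin N) (Fin N) ℂ :=
  fun i j => if j ≤ i then cJ N a j i else 0

/-- `(2 - 2 cos φ_t) (2 cos χ - 2 cos φ_t)`, `φ_t = 2 π t / N` -/
noncomputable def Ph (N : ℕ) (χ : ℂ) (t : ℕ) : ℂ :=
  (2 - 2 * Real.cos (2 * π * t / N)) * (2 * Complex.cos χ - 2 * Real.cos (2 * π * t / N))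

/-- the matrix of `σ_2^b` -/
noncomputable def MB0 (N : ℕ) (χ : ℂ) (b : ℤ) : Matrix (Fin N) (Fin N) ℂ :=
  fun i j => if i ≤ j then (∏ t ∈ Ioc (i : ℕ) j, Ph N χ t) * cJ N b i j else 0

/-- the trace -/
noncomputable def Tf (N : ℕ) (ls : List (ℤ × ℤ)) (χ : ℂ) : ℂ :=
  ((ls.map fun p => MA0 N p.1 * MB0 N χ p.2).prod).trace

/-- projection to the indices `≥ N - p` -/
noncomputable def pH (N p : ℕ) : Matrix (Fin N) (Fin N) ℂ :=
  Matrix.diagonal fun i => if N ≤ i + p then 1 else 0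

/-- the trace on the indices `≥ N - p` -/
noncomputable def Thi (N : ℕ) (ls : List (ℤ × ℤ)) (p : ℕ) : ℂ :=
  (pH N p * (ls.map fun q => MA0 N q.1 * pH N p * MB0 N (2 * π * p / N) q.2 * pH N p).prod).trace

/-- the weight of the variable `χ` -/
noncomputable def wE (N : ℕ) (m : ℤ) (χ : ℂ) : ℂ := Complex.sin χ * Ea (2 * m) N χ

/-- EXF: the exact formula -/
def S_EXF : Prop := S_GDA → S_TRG → S_JLC → S_RTV → S_JLX → S_BASF → S_PT → S_ACT → S_FT → S_HATM →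
  S_GD3 → S_DEC → S_DDS → S_BAS → S_HV → S_SIG1 → S_SIG2 → S_SIGT → S_TH → S_NIL → S_QV → S_VWP →
  S_TAS → S_X12 → S_SPL → S_BID →
  ∀ (N : ℕ) (ls : List (ℤ × ℤ)) (m : ℤ), 2 ≤ N → ls ≠ [] →
  ‖cjones N 2 (ftw m ++ bw ls) (vN N)‖ =
    ‖∑ p ∈ range N, deriv (fun χ => wE N m χ * Tf N ls χ) (2 * π * p / N) -
      2 * Complex.I * m * N * ∑ p ∈ range N, wE N m (2 * π * p / N) * Thi N ls p‖

end Pool.Agent.Y472
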