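import Pool.Agent.Y967.CB.ExfC
import Pool.Agent.Y448.CB.Trg
import Pool.Agent.Y195.CB.JLX
import Pool.Agent.Y195.CB.JLC
import Pool.Agent.Y833.CB.Dec
import Pool.Agent.Y833.CB.Dds
import Pool.Agent.Y833.CB.Spl
import Pool.Agent.Y516.CB.Act
import Pool.Agent.Y516.CB.FT
import Pool.Agent.Y686.CB.Gda
import Pool.Agent.Y678.CB.Qv
import Pool.Agent.Y678.CB.Vwp
import Pool.Agent.Y678.CB.Bid
import Pool.Agent.Y494.CB.Bas
import Pool.Agent.Y494.CB.PT
import Pool.Agent.Y317.CB.TH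
import Pool.Agent.Y228.CB.HV
import Pool.Agent.Y574.CB.NIL
import Pool.Agent.Y807.CB.Sig1F
import Pool.Agent.Y807.CB.Sig2
import Pool.Agent.Y807.CB.Sigt

/-!
# The exact formula for the coloured Jones polynomial of closed 3-braids at the root of unity
-/

set_option autoImplicit false

namespace Pool.Agent.Y472

open Finset Filter Topology Pool.Agent.H550R3.Jones Pool.Agent.W711.HT
open scoped Real

/-- the exact formula -/
theorem exact_formula (N : ℕ) (ls : List (ℤ × ℤ)) (m : ℤ) (hN : 2 ≤ N) (hl : ls ≠ []) :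
    ‖cjones N 2 (ftw m ++ bw ls) (vN N)‖ =
    ‖∑ p ∈ range N, deriv (fun χ => wE N m χ * Tf N ls χ) (2 * π * p / N) -
      2 * Complex.I * m * N * ∑ p ∈ range N, wE N m (2 * π * p / N) * Thi N ls p‖ :=
  Pool.Agent.Y967.CB.exf Pool.Agent.Y686.CB.gda Pool.Agent.Y448.CB.trg Pool.Agent.Y195.CB.jlc
    Pool.Agent.Y195.CB.rtv Pool.Agent.Y195.CB.jlx Pool.Agent.Y833.CB.basf Pool.Agent.Y494.CB.pt
    Pool.Agent.Y516.CB.act Pool.Agent.Y516.CB.ft Pool.Agent.Y317.CB.hatm Pool.Agent.Y317.CB.gd3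
    Pool.Agent.Y833.CB.dec Pool.Agent.Y833.CB.dds Pool.Agent.Y494.CB.bas Pool.Agent.Y228.CB.hvt
    Pool.Agent.Y807.CB.sig1 Pool.Agent.Y807.CB.sig2 Pool.Agent.Y807.CB.sigt Pool.Agent.Y317.CB.th
    Pool.Agent.Y574.CB.nil Pool.Agent.Y678.CB.qv Pool.Agent.Y678.CB.vwp Pool.Agent.Y833.CB.tas
    Pool.Agent.Y317.CB.x12 Pool.Agent.Y833.CB.spl Pool.Agent.Y678.CB.bid N ls m hN hl

end Pool.Agent.Y472
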