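import Mathlib

/-!
# Closed 3-braids at a root of unity, with a deformation parameter: definitions and statements

`w = exp(π i / N)` (or any number with `Rt N w`), `l` is the deformation parameter (`l = w ^ N = -1`
is the coloured Jones polynomial), `cb y = y - 1 / y`.  Vectors of two (three) strands are functions
of two (three) natural numbers; `T2 N`, `T3 N` are the functions supported on numbers `< N`.
-/

set_option autoImplicit false

namespace Pool.Agent.Y472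

open Finset Filter Topology

/-- `y - 1 / y` -/
noncomputable def cb (y : ℂ) : ℂ := y - y⁻¹

/-- two strands -/
abbrev V2 : Type := ℕ → ℕ → ℂ
/-- three strands -/
abbrev V3 : Type := ℕ → ℕ → ℕ → ℂ

/-- the root of unity -/
structure Rt (N : ℕ) (w : ℂ) : Prop where
  pos : 2 ≤ N
  prim : IsPrimitiveRoot (w ^ 2) N
  neg : w ^ N = -1
  nrm : ‖w‖ = 1

/-- the deformation parameter is generic -/
structure Gl (l : ℂ) : Prop where
  ne : l ≠ 0
  nrm : ‖l‖ ≠ 1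

/-- the weight of `e_a` -/
noncomputable def KK (w l : ℂ) (a : ℕ) : ℂ := l * w ^ (-1 - 2 * (a : ℤ))
/-- `{N' + k}` -/
noncomputable def lb (w l : ℂ) (k : ℤ) : ℂ := cb (l * w ^ k)
/-- `{k}` -/
noncomputable def qi (w : ℂ) (k : ℤ) : ℂ := cb (w ^ k)

/-- Gaussian binomials -/
noncomputable def qb (w : ℂ) : ℕ → ℕ → ℂ
  | _, 0 => 1
  | 0, _ + 1 => 0
  | m + 1, n + 1 => w ^ ((n : ℤ) + 1) * qb w m (n + 1) + w ^ ((n : ℤ) - m) * qb w m n

/-- the supports -/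
def T2 (N : ℕ) : Submodule ℂ V2 where
  carrier := {x | ∀ a b, (N ≤ a ∨ N ≤ b) → x a b = 0}
  add_mem' {x y} hx hy a b h := by
    show x a b + y a b = 0
    rw [hx a b h, hy a b h, add_zero]
  zero_mem' a b _ := rfl
  smul_mem' c x hx a b h := by
    show c • x a b = 0
    rw [hx a b h, smul_zero]

def T3 (N : ℕ) : Submodule ℂ V3 where
  carrier := {x | ∀ a b c, (N ≤ a ∨ N ≤ b ∨ N ≤ c) → x a b c = 0}
  add_mem' {x y} hx hy a b c h := by
    show x a b c + y a b c = 0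
    rw [hx a b c h, hy a b c h, add_zero]
  zero_mem' a b c _ := rfl
  smul_mem' k x hx a b c h := by
    show k • x a b c = 0
    rw [hx a b c h, smul_zero]

/-! ### The operators -/

/-- `ΔE = E ⊗ K + 1 ⊗ E` -/
noncomputable def E2 (w l : ℂ) : V2 →ₗ[ℂ] V2 where
  toFun x a b := lb w l (-1 - a) * KK w l b * x (a + 1) b + lb w l (-1 - b) * x a (b + 1)
  map_add' x y := by funext a b; simp only [Pi.add_apply]; ring
  map_smul' c x := by funext a b; simp only [Pi.smul_apply, smul_eq_mul, RingHom.id_apply]; ring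

/-- `ΔF = F ⊗ 1 + K⁻¹ ⊗ F` -/
noncomputable def F2 (w l : ℂ) : V2 →ₗ[ℂ] V2 where
  toFun x a b := qi w a * x (a - 1) b + (KK w l a)⁻¹ * qi w b * x a (b - 1)
  map_add' x y := by funext a b; simp only [Pi.add_apply]; ring
  map_smul' c x := by funext a b; simp only [Pi.smul_apply, smul_eq_mul, RingHom.id_apply]; ring

/-- the weight -/
noncomputable def K2 (w l : ℂ) : V2 →ₗ[ℂ] V2 where
  toFun x a b := KK w l a * KK w l b * x a b
  map_add' x y := by funext a b; simp only [Pi.add_apply]; ring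
  map_smul' c x := by funext a b; simp only [Pi.smul_apply, smul_eq_mul, RingHom.id_apply]; ring

/-- the Casimir operator -/
noncomputable def cas (w l : ℂ) : V2 →ₗ[ℂ] V2 where
  toFun x a b := F2 w l (E2 w l x) a b +
    (w * KK w l a * KK w l b + (w * KK w l a * KK w l b)⁻¹) * x a b
  map_add' x y := by funext a b; simp only [map_add, Pi.add_apply]; ring
  map_smul' c x := by
    funext a b; simp only [map_smul, Pi.smul_apply, smul_eq_mul, RingHom.id_apply]; ring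

/-- the positive crossing -/
noncomputable def sg (w l : ℂ) : V2 →ₗ[ℂ] V2 where
  toFun x a b := l ^ (-(1 + (a : ℤ) + b)) * w ^ (1 + (a : ℤ) + b + 2 * a * b) *
    ∑ n ∈ range (a + 1), w ^ (n * (n - 1) / 2) * qb w a n *
      (∏ t ∈ range n, lb w l (-(b : ℤ) - 1 - t)) * x (b + n) (a - n)
  map_add' x y := by
    funext a b
    simp only [Pi.add_apply, mul_add, sum_add_distrib]
  map_smul' c x := by
    funext a b
    simp only [Pi.smul_apply, smul_eq_mul, RingHom.id_apply, mul_sum]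
    refine sum_congr rfl fun n _ => ?_
    ring

/-- the negative crossing -/
noncomputable def sn (w l : ℂ) : V2 →ₗ[ℂ] V2 where
  toFun x a b := l ^ (1 + (a : ℤ) + b) * w ^ (-(1 + (a : ℤ) + b)) *
    ∑ n ∈ range (b + 1), (-1) ^ n *
      w ^ (-((n * (n - 1) / 2 : ℕ) : ℤ) - 2 * ((b : ℤ) - n) * ((a : ℤ) + n)) * qb w b n *
      (∏ t ∈ range n, lb w l (-(a : ℤ) - 1 - t)) * x (b - n) (a + n)
  map_add' x y := by
    funext a b
    simp only [Pi.add_apply, mul_add, sum_add_distrib]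
  map_smul' c x := by
    funext a b
    simp only [Pi.smul_apply, smul_eq_mul, RingHom.id_apply, mul_sum]
    refine sum_congr rfl fun n _ => ?_
    ring

/-- an operator acting on the strands one and two of three -/
def L12 (A : V2 →ₗ[ℂ] V2) : V3 →ₗ[ℂ] V3 where
  toFun x a b c := A (fun a b => x a b c) a b
  map_add' x y := by
    funext a b c
    show A ((fun a b => x a b c) + fun a b => y a b c) a b = _
    rw [map_add]; rfl
  map_smul' k x := by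
    funext a b c
    show A (k • fun a b => x a b c) a b = _
    rw [map_smul]; rfl

/-- an operator acting on the strands two and three of three -/
def L23 (A : V2 →ₗ[ℂ] V2) : V3 →ₗ[ℂ] V3 where
  toFun x a := A (x a)
  map_add' x y := by funext a; show A (x a + y a) = _; rw [map_add]; rfl
  map_smul' k x := by funext a; show A (k • x a) = _; rw [map_smul]; rfl

noncomputable def E3 (w l : ℂ) : V3 →ₗ[ℂ] V3 where
  toFun x a b c := lb w l (-1 - a) * KK w l b * KK w l c * x (a + 1) b c + E2 w l (x a) b c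
  map_add' x y := by funext a b c; simp only [map_add, Pi.add_apply]; ring
  map_smul' k x := by
    funext a b c; simp only [map_smul, Pi.smul_apply, smul_eq_mul, RingHom.id_apply]; ring

noncomputable def F3 (w l : ℂ) : V3 →ₗ[ℂ] V3 where
  toFun x a b c := qi w a * x (a - 1) b c + (KK w l a)⁻¹ * F2 w l (x a) b c
  map_add' x y := by funext a b c; simp only [map_add, Pi.add_apply]; ring
  map_smul' k x := by
    funext a b c; simp only [map_smul, Pi.smul_apply, smul_eq_mul, RingHom.id_apply]; ring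

/-- `e_0 ⊗ m` -/
def io : V2 →ₗ[ℂ] V3 where
  toFun m a b c := if a = 0 then m b c else 0
  map_add' x y := by funext a b c; simp only [Pi.add_apply]; split_ifs <;> simp
  map_smul' k x := by
    funext a b c; simp only [Pi.smul_apply, RingHom.id_apply]; split_ifs <;> simp

/-- `e_{q} ⊗ e_{s}` -/
def dl (q s : ℕ) : V2 := fun a b => if a = q ∧ b = s then 1 else 0

/-- good operators on two strands: homomorphisms of modules which respect the supports -/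
structure Gd (N : ℕ) (w l : ℂ) (A : V2 →ₗ[ℂ] V2) : Prop where
  e : ∀ x, A (E2 w l x) = E2 w l (A x)
  f : ∀ x, A (F2 w l x) = F2 w l (A x)
  k : ∀ x, A (K2 w l x) = K2 w l (A x)
  t : ∀ x ∈ T2 N, A x ∈ T2 N

/-- good operators on three strands -/
structure Gd3 (N : ℕ) (w l : ℂ) (X : V3 →ₗ[ℂ] V3) : Prop where
  e : ∀ x, X (E3 w l x) = E3 w l (X x)
  f : ∀ x, X (F3 w l x) = F3 w l (X x)
  t : ∀ x ∈ T3 N, X x ∈ T3 N

/-- SIG1: the crossings are homomorphisms -/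
def S_SIG1 : Prop := ∀ w l : ℂ, w ≠ 0 → l ≠ 0 →
  (∀ x, sg w l (E2 w l x) = E2 w l (sg w l x)) ∧ (∀ x, sg w l (F2 w l x) = F2 w l (sg w l x))

/-- SIG2: the crossings are homomorphisms -/
def S_SIG2 : Prop := ∀ w l : ℂ, w ≠ 0 → l ≠ 0 →
  (∀ x, sn w l (E2 w l x) = E2 w l (sn w l x)) ∧ (∀ x, sn w l (F2 w l x) = F2 w l (sn w l x))

/-- SIGT: the crossings and the Casimir operator respect the supports and the weights -/
def S_SIGT : Prop := ∀ (N : ℕ) (w l : ℂ), Rt N w → l ≠ 0 →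
  (∀ x ∈ T2 N, sg w l x ∈ T2 N) ∧ (∀ x ∈ T2 N, sn w l x ∈ T2 N) ∧
  (∀ x ∈ T2 N, E2 w l x ∈ T2 N) ∧ (∀ x ∈ T2 N, F2 w l x ∈ T2 N) ∧ (∀ x ∈ T2 N, cas w l x ∈ T2 N) ∧
  (∀ x, sg w l (K2 w l x) = K2 w l (sg w l x)) ∧ (∀ x, sn w l (K2 w l x) = K2 w l (sn w l x)) ∧
  (∀ x, cas w l (K2 w l x) = K2 w l (cas w l x)) ∧
  (∀ x, cas w l (E2 w l x) = E2 w l (cas w l x)) ∧ (∀ x, cas w l (F2 w l x) = F2 w l (cas w l x))

/-- NIL: nilpotency (the two summands of `E2`, `F2` commute up to `w ^ (±2)`) -/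
def S_NIL : Prop := ∀ (N : ℕ) (w l : ℂ), Rt N w → l ≠ 0 → ∀ x ∈ T2 N,
  (E2 w l)^[N] x = 0 ∧ (F2 w l)^[N] x = 0

/-! ### Two strands -/

/-- the highest weight vectors -/
noncomputable def hv (w l : ℂ) (j : ℕ) : V2 := fun a b => if a + b = j then
  ∏ t ∈ range a, (-lb w l (-((j : ℤ) - t)) / (lb w l (-1 - t) * KK w l (j - 1 - t))) else 0

/-- the basis -/
noncomputable def gv (w l : ℂ) (j k : ℕ) : V2 := (F2 w l)^[k] (hv w l j)

/-- eigenvalues of the Casimir operator -/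
noncomputable def uu (w l : ℂ) (j : ℕ) : ℂ := l ^ 2 * w ^ (-1 - 2 * (j : ℤ)) + (l ^ 2 * w ^ (-1 - 2 * (j : ℤ)))⁻¹
/-- eigenvalues of the positive crossing -/
noncomputable def se (w l : ℂ) (j : ℕ) : ℂ := (-1) ^ j * l ^ (-1 - 2 * (j : ℤ)) * w ^ (j * j + j + 1)

/-- HV: the highest weight vectors and their descendants -/
def S_HV : Prop := S_SIG1 → S_SIG2 → S_SIGT → ∀ (N : ℕ) (w l : ℂ), Rt N w → Gl l → ∀ j < N,
  hv w l j ∈ T2 N ∧ E2 w l (hv w l j) = 0 ∧ (∀ k : ℕ,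
    (E2 w l (gv w l j (k + 1)) =
      (qi w (k + 1) * cb (l ^ 2 * w ^ (-1 - 2 * (j : ℤ) - (k + 1)))) • gv w l j k) ∧
    cas w l (gv w l j k) = uu w l j • gv w l j k ∧
    sg w l (gv w l j k) = se w l j • gv w l j k ∧
    sn w l (gv w l j k) = (se w l j)⁻¹ • gv w l j k)

/-- the matrix of the family `g` -/
noncomputable def mG (N : ℕ) (w l : ℂ) : Matrix (Fin N × Fin N) (Fin N × Fin N) ℂ :=
  fun p p' => gv w l p'.1 p'.2 p.1 p.2

/-- BAS: the family `g` is a basis -/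
def S_BAS : Prop := S_HV → S_SIG1 → S_SIG2 → S_SIGT → S_NIL → ∀ (N : ℕ) (w l : ℂ), Rt N w → Gl l →
  (mG N w l).det ≠ 0

/-! ### Three strands: highest weight vectors -/

/-- the components of a highest weight vector -/
noncomputable def thA (w l : ℂ) : ℕ → V2 →ₗ[ℂ] V2
  | 0 => LinearMap.id
  | a + 1 =>
    { toFun := fun m b c => -(lb w l (-1 - a) * KK w l b * KK w l c)⁻¹ * E2 w l (thA w l a m) b c
      map_add' := fun x y => by funext b c; simp only [map_add, Pi.add_apply]; ring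
      map_smul' := fun k x => by
        funext b c; simp only [map_smul, Pi.smul_apply, smul_eq_mul, RingHom.id_apply]; ring }

/-- the highest weight vector with the given slice -/
noncomputable def Th (w l : ℂ) : V2 →ₗ[ℂ] V3 where
  toFun m a := thA w l a m
  map_add' x y := by funext a; simp only [map_add, Pi.add_apply]
  map_smul' k x := by funext a; simp only [map_smul, Pi.smul_apply, RingHom.id_apply]

/-- the action on the highest weight vectors, in terms of slices -/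
noncomputable def hat (w l : ℂ) (X : V3 →ₗ[ℂ] V3) : V2 →ₗ[ℂ] V2 where
  toFun m := X (Th w l m) 0
  map_add' x y := by simp only [map_add, Pi.add_apply]
  map_smul' k x := by simp only [map_smul, Pi.smul_apply, RingHom.id_apply]

/-- TH: highest weight vectors and slices -/
def S_TH : Prop := S_NIL → ∀ (N : ℕ) (w l : ℂ), Rt N w → Gl l →
  (∀ m, E3 w l (Th w l m) = 0) ∧ (∀ m, Th w l m 0 = m) ∧
  (∀ x : V3, E3 w l x = 0 → x = Th w l (x 0)) ∧ (∀ m ∈ T2 N, Th w l m ∈ T3 N) ∧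
  (∀ (t : ℕ) (x : V3), ((F3 w l)^[t] x) 0 = fun b c => (KK w l 0)⁻¹ ^ t * ((F2 w l)^[t] (x 0)) b c) ∧
  (∀ (m : V2) (D t : ℕ), (∀ a b, a + b ≠ D → m a b = 0) →
    E3 w l ((F3 w l)^[t + 1] (Th w l m)) =
      (qi w (t + 1) * cb (l ^ 3 * w ^ (-2 - 2 * (D : ℤ) - (t + 1)))) • (F3 w l)^[t] (Th w l m))

/-- GD3: good operators -/
def S_GD3 : Prop := ∀ (N : ℕ) (w l : ℂ), Rt N w → l ≠ 0 → ∀ A : V2 →ₗ[ℂ] V2, Gd N w l A →
  Gd3 N w l (L12 A) ∧ Gd3 N w l (L23 A)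

/-- HATM: multiplicativity -/
def S_HATM : Prop := S_TH → S_NIL → ∀ (N : ℕ) (w l : ℂ), Rt N w → Gl l →
  ∀ X Y : V3 →ₗ[ℂ] V3, Gd3 N w l X → Gd3 N w l Y →
    hat w l (X * Y) = hat w l X * hat w l Y ∧ (∀ m, X (Th w l m) = Th w l (hat w l X m)) ∧
    (∀ m ∈ T2 N, hat w l X m ∈ T2 N)

/-! ### The decomposition of `e_0 ⊗ g_{j,k}` -/

/-- the coefficients -/
noncomputable def aa (w l : ℂ) (j k r : ℕ) : ℂ :=
  l ^ (2 * r) * w ^ ((r : ℤ) * (-1 - 2 * j - r)) *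
    (∏ t ∈ range r, (lb w l (-1 - t) / cb (l ^ 3 * w ^ (-2 - 2 * ((j : ℤ) + r) + (t + 1))))) *
    ∏ t ∈ range (k - r), (qi w (r + (t + 1)) * cb (l ^ 2 * w ^ (-1 - 2 * (j : ℤ) - r - (t + 1))) /
      (qi w (t + 1) * cb (l ^ 3 * w ^ (-2 - 2 * ((j : ℤ) + r) - (t + 1)))))

/-- QV: a `q`-Vandermonde sum -/
def S_QV : Prop := ∀ (v β γ : ℂ) (n : ℕ), v ≠ 0 → β ≠ 0 → γ ≠ 0 →
  (∀ k < n, cb (v ^ (k + 1)) ≠ 0) → (∀ k < n, cb (γ * v ^ (-1 - (k : ℤ))) ≠ 0) →
  ∑ k ∈ range (n + 1), (-(β / γ) * v ^ ((n : ℤ) - 1)) ^ k *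
    ∏ t ∈ range k, (cb (v ^ (n - t)) * cb (β * v ^ (-1 - (t : ℤ))) /
      (cb (v ^ (t + 1)) * cb (γ * v ^ (-1 - (t : ℤ))))) =
    (β / v) ^ n * ∏ t ∈ range n, (cb (γ / β * v ^ (-(t : ℤ))) / cb (γ * v ^ (-1 - (t : ℤ))))

/-- the terms of the very well poised sum -/
noncomputable def vT (v a b : ℂ) (k r : ℕ) : ℂ :=
  v ^ (-(r : ℤ) ^ 2) * b ^ r * (v / a) ^ (k - r) *
    (∏ t ∈ range r, (cb (a * v ^ (-1 - (t : ℤ))) / cb (a * b * v ^ (-1 - 2 * (r : ℤ) + (t + 1))))) *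
    ∏ t ∈ range (k - r), (cb (v ^ (r + (t + 1))) * cb (b * v ^ (-(r : ℤ) - (t + 1))) /
      (cb (v ^ (t + 1)) * cb (a * b * v ^ (-1 - 2 * (r : ℤ) - (t + 1)))))

/-- VWP: a very well poised sum -/
def S_VWP : Prop := ∀ (v a b : ℂ) (k : ℕ), v ≠ 0 → a ≠ 0 → b ≠ 0 →
  (∀ i : ℕ, i < k → cb (v ^ (i + 1)) ≠ 0) → (∀ i : ℤ, cb (a * b * v ^ i) ≠ 0) →
  (∀ i : ℤ, cb (b * v ^ i) ≠ 0) → ∑ r ∈ range (k + 1), vT v a b k r = 1

/-- DEC: the decomposition -/
def S_DEC : Prop := S_VWP → S_TH → S_HV → S_SIG1 → S_SIG2 → S_SIGT → S_NIL → ∀ (N : ℕ) (w l : ℂ), Rt N w → Gl l →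
  ∀ j < N, ∀ k < N, (∑ r ∈ range (k + 1), aa w l j k r * (KK w l 0)⁻¹ ^ (k - r) = 1) ∧
    io (gv w l j k) = ∑ r ∈ range (k + 1), aa w l j k r • (F3 w l)^[k - r] (Th w l (gv w l j r))

/-- modified dimensions -/
noncomputable def dd (N : ℕ) (w l : ℂ) (D : ℕ) : ℂ :=
  l ^ (2 * N) * cb (l ^ N) * cb (l ^ 3 * w ^ (-2 - 2 * (D : ℤ))) / (cb l * cb (l ^ (3 * N)))

/-- DDS: the sum of the coefficients -/
def S_DDS : Prop := S_QV → ∀ (N : ℕ) (w l : ℂ), Rt N w → Gl l → ∀ j < N, ∀ r < N,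
  ∑ k ∈ Ico r N, l ^ 2 * w ^ (-2 - 2 * ((j : ℤ) + k)) * (aa w l j k r * (KK w l 0)⁻¹ ^ (k - r)) =
    dd N w l (j + r)

/-- eigenvalue of the full twist -/
noncomputable def ta (w l : ℂ) (D : ℕ) : ℂ :=
  l ^ (-6 * (1 + (D : ℤ))) * w ^ (2 * (1 + D) ^ 2 + 4)

/-- TAS: the second sum of the coefficients -/
def S_TAS : Prop := S_VWP → ∀ (N : ℕ) (w l : ℂ), Rt N w → Gl l → ∀ j < N, ∀ k < N,
  ∑ r ∈ range (k + 1), aa w l j k r * (KK w l 0)⁻¹ ^ (k - r) * ta w l (j + r) =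
    (w / l) ^ (2 * (2 + j + k)) * se w l j ^ 2

/-- PT: the partial trace -/
def S_PT : Prop := S_DEC → S_DDS → S_BAS → S_TH → S_NIL → S_HATM → S_SIGT →
  S_QV → S_VWP → S_HV → S_SIG1 → S_SIG2 →
  ∀ (N : ℕ) (w l : ℂ), Rt N w → Gl l → ∀ X : V3 →ₗ[ℂ] V3, Gd3 N w l X →
    (∀ m : V2, ∀ D : ℕ, (∀ a b, a + b ≠ D → m a b = 0) →
      ∀ a b, a + b ≠ D → hat w l X m a b = 0) →
    ∑ q ∈ range N, ∑ s ∈ range N, KK w l q * KK w l s * X (io (dl q s)) 0 q s =
      ∑ q ∈ range N, ∑ s ∈ range N, dd N w l (q + s) * hat w l X (dl q s) q s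

/-! ### The action in the split basis -/

/-- `hat (L12 cas)` -/
noncomputable def X12 (w l : ℂ) : V2 →ₗ[ℂ] V2 where
  toFun x q s := uu w l q * x q s -
    (l ^ 2 * w ^ (-2 - 2 * (s : ℤ)))⁻¹ * qi w q * lb w l (-1 - s) * x (q - 1) (s + 1)
  map_add' x y := by funext a b; simp only [Pi.add_apply]; ring
  map_smul' c x := by funext a b; simp only [Pi.smul_apply, smul_eq_mul, RingHom.id_apply]; ring

/-- X12 -/
def S_X12 : Prop := S_TH → S_NIL → S_SIGT → ∀ (N : ℕ) (w l : ℂ), Rt N w → Gl l →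
  hat w l (L12 (cas w l)) = X12 w l ∧ ∀ A : V2 →ₗ[ℂ] V2, hat w l (L23 A) = A

/-- the split basis -/
noncomputable def fb (N : ℕ) (w l : ℂ) (D i : ℕ) : V2 := fun q s =>
  if q + s = D ∧ q < N ∧ s < N then
    (-1) ^ i * (∏ t ∈ range i, (cb (l ^ 3 * w ^ (-2 - (D : ℤ) - t)) * qi w ((q : ℤ) - t))) *
      (l ^ (-(s : ℤ) - i) * w ^ ((s : ℤ) * (q + 1) + i * (s + 1))) else 0

/-- the super-diagonal entries -/
noncomputable def ph (w l : ℂ) (D i : ℕ) : ℂ :=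
  -(qi w ((D : ℤ) + 1 - i) * qi w i * lb w l (-i) * cb (l ^ 3 * w ^ (-1 - (D : ℤ) - i)))

/-- SPL: the action on the split basis -/
def S_SPL : Prop := ∀ (N : ℕ) (w l : ℂ), Rt N w → Gl l → ∀ D i : ℕ, D < i + N → i < N →
  X12 w l (fb N w l D i) = uu w l i • fb N w l D i + fb N w l D (i + 1) ∧
  cas w l (fb N w l D i) = uu w l i • fb N w l D i + ph w l D i • fb N w l D (i - 1)

/-- divided differences of `se ^ a` at the nodes `uu` -/
noncomputable def gd (w l : ℂ) (a : ℤ) (i j : ℕ) : ℂ :=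
  ∑ k ∈ Icc i j, Lagrange.nodalWeight (Icc i j) (uu w l) k * se w l k ^ a

/-- `P(A) f_i = ∑ P[u_i, …, u_j] f_j` -/
def S_BID : Prop := ∀ (V : Type) [AddCommGroup V] [Module ℂ V] (A : V →ₗ[ℂ] V) (u : ℕ → ℂ)
  (f : ℕ → V) (φ : ℕ → ℂ) (N : ℕ) (P : Polynomial ℂ), Set.InjOn u (Set.Iio N) →
  ((∀ i < N, A (f i) = u i • f i + f (i + 1)) → f N = 0 → ∀ i < N,
    Polynomial.aeval A P (f i) = ∑ j ∈ Ico i N,
      (∑ k ∈ Icc i j, Lagrange.nodalWeight (Icc i j) u k * P.eval (u k)) • f j) ∧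
  (∀ i₀ : ℕ, (∀ i < N, i₀ ≤ i → A (f i) = u i • f i + φ i • f (i - 1)) → φ i₀ = 0 →
    ∀ j < N, i₀ ≤ j → Polynomial.aeval A P (f j) = ∑ i ∈ Icc i₀ j, ((∏ t ∈ Ioc i j, φ t) *
      ∑ k ∈ Icc i j, Lagrange.nodalWeight (Icc i j) u k * P.eval (u k)) • f i)

/-- the crossings -/
noncomputable def sz (w l : ℂ) (a : ℤ) : V2 →ₗ[ℂ] V2 :=
  if 0 ≤ a then sg w l ^ a.toNat else sn w l ^ (-a).toNat

/-- ACT: the action of the twist regions on the split basis -/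
def S_ACT : Prop := S_BID → S_SPL → S_X12 → S_HATM → S_GD3 → S_BAS → S_HV → S_SIG1 → S_SIG2 → S_SIGT →
  S_TH → S_NIL → ∀ (N : ℕ) (w l : ℂ), Rt N w → Gl l → ∀ (a : ℤ) (D i : ℕ), D < i + N → i < N →
  hat w l (L12 (sz w l a)) (fb N w l D i) = ∑ j ∈ Ico i N, gd w l a i j • fb N w l D j ∧
  hat w l (L23 (sz w l a)) (fb N w l D i) =
    ∑ j ∈ range (i + 1), ((∏ t ∈ Ioc j i, ph w l D t) * gd w l a j i) • fb N w l D j

/-- the full twist -/
noncomputable def fullt (w l : ℂ) (m : ℤ) : V3 →ₗ[ℂ] V3 :=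
  if 0 ≤ m then (L12 (sg w l) * L23 (sg w l) * L12 (sg w l) * L12 (sg w l) * L23 (sg w l) *
    L12 (sg w l)) ^ m.toNat
  else (L12 (sn w l) * L23 (sn w l) * L12 (sn w l) * L12 (sn w l) * L23 (sn w l) *
    L12 (sn w l)) ^ (-m).toNat

/-- FT: the full twist acts on the highest weight vectors by scalars -/
def S_FT : Prop := S_TAS → S_DEC → S_BAS → S_HATM → S_GD3 → S_HV → S_SIG1 → S_SIG2 → S_SIGT → S_TH →
  S_NIL → S_VWP → ∀ (N : ℕ) (w l : ℂ), Rt N w → Gl l → ∀ (m : ℤ) (x : V2) (D : ℕ), x ∈ T2 N →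
    (∀ a b, a + b ≠ D → x a b = 0) → hat w l (fullt w l m) x = ta w l D ^ m • x

end Pool.Agent.Y472
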